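import Pool.Agent.H3.FMS.Defs
import Pool.Agent.H38.FM.ListBridge

/-!
# The short definitions and those of `H38/FM/List.lean`
-/

set_option autoImplicit false

namespace Pool.MP_f23e48.Conv

open Pool.MP_f23e48

/-- the metric with the old name -/
def om (g : Met) : Pool.Agent.H38.FlatMet.Met := ⟨g.a, g.b, g.c⟩

theorem om_surj (h : Pool.Agent.H38.FlatMet.Met) : ∃ g, om g = h := ⟨⟨h.a, h.b, h.c⟩, rfl⟩

theorem quadForm_iff (f : ℂ → ℂ) : QuadForm f ↔ Pool.Agent.H38.FlatMet.QuadForm f := by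
  constructor
  · rintro (_ | _ | ⟨k, hk⟩ | ⟨k, hk⟩)
    · exact .one
    · exact .lin
    · exact .dbl k hk
    · exact .two k hk
  · rintro (_ | _ | ⟨k, hk⟩ | ⟨k, hk⟩)
    · exact .one
    · exact .lin
    · exact .dbl k hk
    · exact .two k hk

theorem nullForm_iff (a : ℂ → ℂ → ℂ) (b : ℂ → ℂ) :
    NullForm a b ↔ Pool.Agent.H38.FlatMet.NullForm a b := by
  constructor
  · intro h
    cases h with
    | m1 c d e h0 h2 => exact .m1 c d e h0 h2
    | m2 c d => exact .m2 c d
    | m3 c d => exact .m3 c d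
    | m4 d => exact .m4 d
    | m5 d => exact .m5 d
    | m6 c h => exact .m6 c h
    | m7 c h => exact .m7 c h
    | m8 c => exact .m8 c
    | m9 c => exact .m9 c
    | m10 c => exact .m10 c
    | m11 => exact .m11
    | m12 => exact .m12
  · intro h
    cases h with
    | m1 c d e h0 h2 => exact .m1 c d e h0 h2
    | m2 c d => exact .m2 c d
    | m3 c d => exact .m3 c d
    | m4 d => exact .m4 d
    | m5 d => exact .m5 d
    | m6 c h => exact .m6 c h
    | m7 c h => exact .m7 c h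
    | m8 c => exact .m8 c
    | m9 c => exact .m9 c
    | m10 c => exact .m10 c
    | m11 => exact .m11
    | m12 => exact .m12

theorem normalForm_of (h : Met) (hh : NormalForm h) :
    Pool.Agent.H38.FlatMet.NormalForm (om h) := by
  cases hh with
  | sep hf hg => exact .sep ((quadForm_iff _).1 hf) ((quadForm_iff _).1 hg)
  | tor al be ga h0 h => exact .tor al be ga h0 h
  | tu al be ha hb h => exact .tu al be ha hb h
  | tu0 al ha => exact .tu0 al ha
  | u2 ga h => exact .u2 ga h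
  | f8 m h => exact .f8 m h
  | s2 al be h => exact .s2 al be h
  | bc k l hk h0 h1 => exact .bc k l hk h0 h1
  | bc3 k hk => exact .bc3 k hk
  | bc2 => exact .bc2
  | a2 r s => exact .a2 r s
  | rs e => exact .rs e
  | null h => exact .null ((nullForm_iff _ _).1 h)

theorem normalForm_to (h : Pool.Agent.H38.FlatMet.Met)
    (hh : Pool.Agent.H38.FlatMet.NormalForm h) : NormalForm ⟨h.a, h.b, h.c⟩ := by
  cases hh with
  | sep hf hg => exact .sep ((quadForm_iff _).2 hf) ((quadForm_iff _).2 hg)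
  | tor al be ga h0 h => exact .tor al be ga h0 h
  | tu al be ha hb h => exact .tu al be ha hb h
  | tu0 al ha => exact .tu0 al ha
  | u2 ga h => exact .u2 ga h
  | f8 m h => exact .f8 m h
  | s2 al be h => exact .s2 al be h
  | bc k l hk h0 h1 => exact .bc k l hk h0 h1
  | bc3 k hk => exact .bc3 k hk
  | bc2 => exact .bc2
  | a2 r s => exact .a2 r s
  | rs e => exact .rs e
  | null h => exact .null ((nullForm_iff _ _).2 h)

open Pool.Agent.H38.FlatMetric (ex) in
theorem isQuad_eval (A : MvPolynomial (Fin 2) ℂ) (hA : A.totalDegree ≤ 2) :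
    IsQuad fun x y => MvPolynomial.eval ![x, y] A := by
  refine ⟨fun x y => A.coeff (ex 2 0) * x ^ 2 + A.coeff (ex 1 1) * x * y +
    A.coeff (ex 0 2) * y ^ 2, ⟨_, _, _, fun _ _ => rfl⟩, A.coeff (ex 1 0), A.coeff (ex 0 1),
    A.coeff (ex 0 0), fun x y => ?_⟩
  change MvPolynomial.eval ![x, y] A = _
  rw [Pool.Agent.H38.FlatMetric.eval_deg_two A hA]
  ring

theorem inFamily_iff (g : Met) : InFamily g ↔ Pool.Agent.H38.FlatMet.InFamily (om g) := by
  constructor
  · rintro ⟨Q, U, V, A, B, C, ⟨q1, q2, q3, hQ⟩, ⟨u1, u2, u3, hU⟩, ⟨v1, v2, v3, hV⟩,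
      ⟨A2, ⟨a1, a2, a3, hA2⟩, a4, a5, a6, hA⟩, ⟨B2, ⟨b1, b2, b3, hB2⟩, b4, b5, b6, hB⟩,
      ⟨C2, ⟨c1, c2, c3, hC2⟩, c4, c5, c6, hC⟩, h⟩
    refine ⟨q1, q2, q3, u1, u2, u3, v1, v2, v3,
      Pool.Agent.H38.FlatMetric.quad a6 a4 a5 a1 a2 a3,
      Pool.Agent.H38.FlatMetric.quad b6 b4 b5 b1 b2 b3,
      Pool.Agent.H38.FlatMetric.quad c6 c4 c5 c1 c2 c3,
      Pool.Agent.H38.FlatMetric.totalDegree_quad _ _ _ _ _ _,
      Pool.Agent.H38.FlatMetric.totalDegree_quad _ _ _ _ _ _,
      Pool.Agent.H38.FlatMetric.totalDegree_quad _ _ _ _ _ _, fun x y => ?_⟩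
    obtain ⟨h1, h2, h3⟩ := h x y
    change g.a x y = _ ∧ g.b x y = _ ∧ g.c x y = _
    rw [h1, h2, h3, Pool.Agent.H38.FlatMetric.eval_quad, Pool.Agent.H38.FlatMetric.eval_quad,
      Pool.Agent.H38.FlatMetric.eval_quad, hQ, hU, hV, hA, hB, hC, hA2, hB2, hC2]
    refine ⟨?_, ?_, ?_⟩ <;> ring
  · rintro ⟨q1, q2, q3, u1, u2, u3, v1, v2, v3, A, B, C, hA, hB, hC, h⟩
    refine ⟨fun x y => q1 * x ^ 2 + q2 * x * y + q3 * y ^ 2,
      fun x y => u1 * x ^ 2 + u2 * x * y + u3 * y ^ 2,
      fun x y => v1 * x ^ 2 + v2 * x * y + v3 * y ^ 2,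
      fun x y => MvPolynomial.eval ![x, y] A, fun x y => MvPolynomial.eval ![x, y] B,
      fun x y => MvPolynomial.eval ![x, y] C,
      ⟨q1, q2, q3, fun _ _ => rfl⟩, ⟨u1, u2, u3, fun _ _ => rfl⟩, ⟨v1, v2, v3, fun _ _ => rfl⟩,
      ?_, ?_, ?_, ?_⟩
    · exact isQuad_eval A hA
    · exact isQuad_eval B hB
    · exact isQuad_eval C hC
    · intro x y
      obtain ⟨h1, h2, h3⟩ := h x y
      refine ⟨h1, ?_, h3⟩
      refine (show g.b x y = _ from h2).trans ?_
      ring

theorem nondeg_iff (g : Met) : Nondeg g ↔ Pool.Agent.H38.FlatMet.Nondeg (om g) := Iff.rfl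

/-- the index -/
def e (k : Bool) : Fin 2 := cond k 1 0

theorem sum_e {M : Type} [AddCommMonoid M] (f : Fin 2 → M) : ∑ k, f k = ∑ k, f (e k) := by
  rw [Fin.sum_univ_two, Fintype.sum_bool, add_comm]
  rfl

theorem pd_e (k : Bool) : pd k = Pool.Agent.H38.FlatMet.pd (e k) := by
  cases k
  · rfl
  · rfl

theorem up_e (g : Met) (k l : Bool) (x y : ℂ) : up g k l x y = (om g).up x y (e k) (e l) := by
  cases k <;> cases l <;> rfl

theorem lo_e (g : Met) (k l : Bool) (x y : ℂ) : lo g k l x y = (om g).lo x y (e k) (e l) := by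
  have h : (om g).lo x y = (D g x y)⁻¹ • !![g.c x y, -g.b x y; -g.b x y, g.a x y] := by
    unfold Pool.Agent.H38.FlatMet.Met.lo Pool.Agent.H38.FlatMet.Met.up
    rw [Matrix.inv_def, Matrix.det_fin_two_of, Matrix.adjugate_fin_two_of, Ring.inverse_eq_inv']
    unfold D
    rw [pow_two]
    rfl
  rw [h]
  unfold lo
  cases k <;> cases l <;> simp [e, div_eq_inv_mul]

theorem lo_fun (g : Met) (k l : Bool) : lo g k l = fun x y => (om g).lo x y (e k) (e l) := by
  funext x y
  exact lo_e g k l x y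

theorem gam_e (g : Met) (k i j : Bool) : Gam g k i j = (om g).Gam (e k) (e i) (e j) := by
  funext x y
  unfold Gam Pool.Agent.H38.FlatMet.Met.Gam
  rw [sum_e]
  simp only [pd_e, up_e, lo_fun]
  ring

theorem riem_e (g : Met) (l k i j : Bool) (x y : ℂ) :
    Riem g l k i j x y = (om g).Riem (e l) (e k) (e i) (e j) x y := by
  unfold Riem Pool.Agent.H38.FlatMet.Met.Riem
  rw [sum_e]
  simp only [pd_e, gam_e]

theorem e_surj (i : Fin 2) : ∃ k, e k = i := by
  fin_cases i
  · exact ⟨false, rfl⟩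
  · exact ⟨true, rfl⟩

theorem flat_iff (g : Met) : Flat g ↔ Pool.Agent.H38.FlatMet.Flat (om g) := by
  constructor
  · intro h x y hD l k i j
    obtain ⟨l, rfl⟩ := e_surj l
    obtain ⟨k, rfl⟩ := e_surj k
    obtain ⟨i, rfl⟩ := e_surj i
    obtain ⟨j, rfl⟩ := e_surj j
    rw [← riem_e]
    exact h x y hD l k i j
  · intro h x y hD l k i j
    rw [riem_e]
    exact h x y hD _ _ _ _

theorem equiv_iff (g h : Met) : Equivalent g h ↔ Pool.Agent.H38.FlatMet.Equivalent (om g) (om h) := by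
  constructor
  · rintro ⟨p, r, hd, H⟩
    refine ⟨!![(p false).u, (p false).v, (p false).w; (p true).u, (p true).v, (p true).w;
      r.u, r.v, r.w], ?_, ?_⟩
    · rw [Matrix.det_fin_three]
      intro h0
      apply hd
      rw [← h0]
      unfold det
      simp
      ring
    · intro x y hr i j
      obtain ⟨i, rfl⟩ := e_surj i
      obtain ⟨j, rfl⟩ := e_surj j
      have h1 := H x y hr i j
      have hp : ∀ i, Pool.Agent.H38.FlatMet.proj !![(p false).u, (p false).v, (p false).w;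
          (p true).u, (p true).v, (p true).w; r.u, r.v, r.w] (e i) =
          fun x y => (p i).at x y / r.at x y := by
        intro i
        cases i <;> rfl
      have h2 := hp false
      have h3 := hp true
      rw [show e false = 0 from rfl] at h2
      rw [show e true = 1 from rfl] at h3
      rw [h2, h3, hp, hp, ← up_e, h1, sum_e]
      refine Finset.sum_congr rfl fun k _ => ?_
      rw [sum_e]
      refine Finset.sum_congr rfl fun l _ => ?_
      rw [pd_e, pd_e, up_e]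
  · rintro ⟨M, hd, H⟩
    refine ⟨fun i => ⟨M (e i).castSucc 0, M (e i).castSucc 1, M (e i).castSucc 2⟩,
      ⟨M 2 0, M 2 1, M 2 2⟩, ?_, ?_⟩
    · rw [Matrix.det_fin_three] at hd
      intro h0
      apply hd
      rw [← h0]
      unfold det e
      simp
      ring
    · intro x y hr i j
      have h1 := H x y hr (e i) (e j)
      rw [up_e]
      refine h1.trans ?_
      rw [sum_e]
      refine Finset.sum_congr rfl fun k _ => ?_
      rw [sum_e]
      refine Finset.sum_congr rfl fun l _ => ?_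
      rw [pd_e, pd_e, up_e]
      rfl

theorem main :
    (∀ h : Met, NormalForm h → InFamily h ∧ Nondeg h ∧ Flat h) ∧
      ∀ g : Met, InFamily g → Nondeg g →
        (Flat g ↔ ∃ h : Met, NormalForm h ∧ Equivalent g h) := by
  obtain ⟨h1, h2⟩ := Pool.Agent.H38.FlatMet.classification
  refine ⟨fun h hh => ?_, fun g hg hn => ?_⟩
  · obtain ⟨h3, h4, h5⟩ := h1 (om h) (normalForm_of h hh)
    exact ⟨(inFamily_iff h).2 h3, h4, (flat_iff h).2 h5⟩
  · rw [flat_iff, h2 (om g) ((inFamily_iff g).1 hg) hn]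
    constructor
    · rintro ⟨h, hh, he⟩
      exact ⟨⟨h.a, h.b, h.c⟩, normalForm_to h hh, (equiv_iff g ⟨h.a, h.b, h.c⟩).2 he⟩
    · rintro ⟨h, hh, he⟩
      exact ⟨om h, normalForm_of h hh, (equiv_iff g h).1 he⟩

end Pool.MP_f23e48.Conv
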