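import Mathlib

/-!
# Flat metrics in the two-variable quasi-exactly solvable family: short definitions

Indices and variables are Booleans: `false` is `x`, `true` is `y`.
-/

set_option autoImplicit false

noncomputable section

namespace Pool.MP_f23e48

/-- A contravariant metric in two variables: `g^{xx} = a`, `g^{xy} = g^{yx} = b`, `g^{yy} = c`. -/
structure Met where
  (a b c : ℂ → ℂ → ℂ)

/-- `Q` is a quadratic form. -/
def IsForm (Q : ℂ → ℂ → ℂ) : Prop :=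
  ∃ r s t : ℂ, ∀ x y, Q x y = r * x ^ 2 + s * x * y + t * y ^ 2

/-- `A` is a polynomial of degree at most two. -/
def IsQuad (A : ℂ → ℂ → ℂ) : Prop :=
  ∃ Q, IsForm Q ∧ ∃ r s t : ℂ, ∀ x y, A x y = Q x y + r * x + s * y + t

/-- The family of the problem: `a = x² Q + x U + A`, `b = x y Q + (y U + x V) / 2 + B`,
`c = y² Q + y V + C`, with quadratic forms `Q, U, V` and polynomials `A, B, C` of degree `≤ 2`. -/
def InFamily (g : Met) : Prop :=
  ∃ Q U V A B C : ℂ → ℂ → ℂ, IsForm Q ∧ IsForm U ∧ IsForm V ∧ IsQuad A ∧ IsQuad B ∧ IsQuad C ∧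
    ∀ x y, g.a x y = x ^ 2 * Q x y + x * U x y + A x y ∧
      g.b x y = x * y * Q x y + (y * U x y + x * V x y) / 2 + B x y ∧
      g.c x y = y ^ 2 * Q x y + y * V x y + C x y

/-- The determinant `a c - b²`. -/
def D (g : Met) (x y : ℂ) : ℂ := g.a x y * g.c x y - g.b x y ^ 2

/-- The determinant is not identically zero. -/
def Nondeg (g : Met) : Prop := ∃ x y : ℂ, D g x y ≠ 0

/-- `g^{kl}`: `g^{xx} = a`, `g^{xy} = g^{yx} = b`, `g^{yy} = c`. -/
def up (g : Met) (k l : Bool) (x y : ℂ) : ℂ :=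
  cond k (cond l (g.c x y) (g.b x y)) (cond l (g.b x y) (g.a x y))

/-- `g_{kl}`, the inverse matrix: `g_{xx} = c / D`, `g_{xy} = g_{yx} = -b / D`, `g_{yy} = a / D`. -/
def lo (g : Met) (k l : Bool) (x y : ℂ) : ℂ :=
  cond k (cond l (g.a x y) (-g.b x y)) (cond l (-g.b x y) (g.c x y)) / D g x y

/-- The partial derivative `∂_k`. -/
def pd (k : Bool) (F : ℂ → ℂ → ℂ) (x y : ℂ) : ℂ :=
  cond k (deriv (fun t => F x t) y) (deriv (fun t => F t y) x)

/-- Christoffel symbols `Γ^k_{ij} = ∑_l g^{kl} (∂_i g_{jl} + ∂_j g_{il} - ∂_l g_{ij}) / 2`. -/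
def Gam (g : Met) (k i j : Bool) (x y : ℂ) : ℂ :=
  (∑ l, up g k l x y * (pd i (lo g j l) x y + pd j (lo g i l) x y - pd l (lo g i j) x y)) / 2

/-- The Riemann tensor
`R^l_{kij} = ∂_i Γ^l_{jk} - ∂_j Γ^l_{ik} + ∑_m (Γ^l_{im} Γ^m_{jk} - Γ^l_{jm} Γ^m_{ik})`. -/
def Riem (g : Met) (l k i j : Bool) (x y : ℂ) : ℂ :=
  pd i (Gam g l j k) x y - pd j (Gam g l i k) x y +
    ∑ m, (Gam g l i m x y * Gam g m j k x y - Gam g l j m x y * Gam g m i k x y)

/-- The Riemann tensor vanishes wherever the metric is nondegenerate. -/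
def Flat (g : Met) : Prop := ∀ x y : ℂ, D g x y ≠ 0 → ∀ l k i j, Riem g l k i j x y = 0

/-- A row `(u, v, w)` of a `3 × 3` matrix. -/
structure Row where
  (u v w : ℂ)

/-- `u x + v y + w`. -/
def Row.at (p : Row) (x y : ℂ) : ℂ := p.u * x + p.v * y + p.w

/-- The determinant of the matrix with the rows `p, q, r`. -/
def det (p q r : Row) : ℂ :=
  p.u * (q.v * r.w - q.w * r.v) - p.v * (q.u * r.w - q.w * r.u) + p.w * (q.u * r.v - q.v * r.u)

/-- The projective change of coordinates `x̃ = p / r`, `ỹ = q / r` (rows `p = p false`,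
`q = p true`, `r`, determinant not zero) carries the contravariant 2-tensor `g` to `h`. -/
def Equivalent (g h : Met) : Prop :=
  ∃ (p : Bool → Row) (r : Row), det (p false) (p true) r ≠ 0 ∧
    ∀ x y, r.at x y ≠ 0 → ∀ i j,
      up h i j ((p false).at x y / r.at x y) ((p true).at x y / r.at x y) =
        ∑ k, ∑ l, pd k (fun x y => (p i).at x y / r.at x y) x y *
          pd l (fun x y => (p j).at x y / r.at x y) x y * up g k l x y

/-- Normal forms of quadratic polynomials in one variable: `1`, `t`, `k t²`, `k t (t - 1)` with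
`k ≠ 0`. -/
inductive QuadForm : (ℂ → ℂ) → Prop
  | one : QuadForm fun _ => 1
  | lin : QuadForm fun t => t
  | dbl (k : ℂ) (hk : k ≠ 0) : QuadForm fun t => k * t ^ 2
  | two (k : ℂ) (hk : k ≠ 0) : QuadForm fun t => k * t * (t - 1)

/-- The pairs `(a, b)` of the normal forms `g^{11} = a(x, y)`, `g^{12} = b(y)`, `g^{22} = 0`. -/
inductive NullForm : (ℂ → ℂ → ℂ) → (ℂ → ℂ) → Prop
  | m1 (c d e : ℂ) (h0 : e ≠ 0) (h2 : e ≠ 2) :
      NullForm (fun x y => c + x * (d + e * y)) fun y => y ^ 2 - y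
  | m2 (c d : ℂ) : NullForm (fun _ y => c + d * y) fun y => y ^ 2 - y
  | m3 (c d : ℂ) : NullForm (fun x y => c + x * (d + y)) fun y => y
  | m4 (d : ℂ) : NullForm (fun x _ => d * x) fun y => y
  | m5 (d : ℂ) : NullForm (fun x y => d * x + y ^ 2) fun y => y
  | m6 (c : ℂ) (h : c ≠ 0) : NullForm (fun _ _ => c) fun y => y
  | m7 (c : ℂ) (h : c ≠ 0) : NullForm (fun _ y => c + y ^ 2) fun y => y
  | m8 (c : ℂ) : NullForm (fun x y => 2 * x + y + c * y ^ 2) fun y => y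
  | m9 (c : ℂ) : NullForm (fun x y => c + x * y) fun _ => 1
  | m10 (c : ℂ) : NullForm (fun x y => x + c * y ^ 2) fun _ => 1
  | m11 : NullForm (fun _ y => y) fun _ => 1
  | m12 : NullForm (fun _ y => y ^ 2) fun _ => 1

/-- The list of normal forms. -/
inductive NormalForm : Met → Prop
  | sep {f g : ℂ → ℂ} (hf : QuadForm f) (hg : QuadForm g) :
      NormalForm ⟨fun x _ => f x, fun _ _ => 0, fun _ y => g y⟩
  | tor (al be ga : ℂ) (h0 : be ≠ 0) (h : al * ga ≠ be ^ 2) :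
      NormalForm ⟨fun x _ => al * x ^ 2, fun x y => be * x * y, fun _ y => ga * y ^ 2⟩
  | tu (al be : ℂ) (ha : al ≠ 0) (hb : be ≠ 0) (h : al ≠ be ^ 2) :
      NormalForm ⟨fun x _ => al * x ^ 2, fun x _ => be * x, fun _ _ => 1⟩
  | tu0 (al : ℂ) (ha : al ≠ 0) :
      NormalForm ⟨fun x _ => al * x ^ 2, fun x _ => x, fun _ _ => 0⟩
  | u2 (ga : ℂ) (h : ga ≠ 0) :
      NormalForm ⟨fun _ _ => 1, fun x _ => x, fun x _ => x ^ 2 + ga⟩
  | f8 (m : ℂ) (h : m ≠ 0) :
      NormalForm ⟨fun _ _ => 1, fun x _ => m * x, fun x y => (m ^ 2 - m / 2) * x ^ 2 + y⟩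
  | s2 (al be : ℂ) (h : be ≠ 0) :
      NormalForm ⟨fun x y => y + (al + be) * x ^ 2, fun x y => 2 * be * x * y,
        fun _ y => 4 * be * y ^ 2⟩
  | bc (k l : ℂ) (hk : k ≠ 0) (h0 : l ≠ 0) (h1 : l ≠ 1) :
      NormalForm
        ⟨fun x y => k * (l * x - (1 + l) * (x ^ 2 - 2 * y) + x ^ 3 - 3 * x * y),
         fun x y => k * y * (2 * l - (1 + l) * x + x ^ 2 - 2 * y),
         fun x y => k * y * (l * x - 2 * (1 + l) * y + x * y)⟩
  | bc3 (k : ℂ) (hk : k ≠ 0) :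
      NormalForm
        ⟨fun x y => k * (x ^ 2 - 2 * y - x), fun x y => k * (x * y - 2 * y),
         fun x y => k * (2 * y ^ 2 - x * y)⟩
  | bc2 : NormalForm ⟨fun x _ => x, fun _ y => 2 * y, fun x y => x * y⟩
  | a2 (r s : ℂ) :
      NormalForm
        ⟨fun x y => x + r * y ^ 2 - 3 * r * x ^ 3 + s * x * y ^ 2 - s * x ^ 4 + r ^ 2 * x ^ 2 * y ^ 2,
         fun x y => 3 / 2 * y - 7 / 2 * r * x ^ 2 * y + s / 2 * y ^ 3 - s * x ^ 3 * y
            + r ^ 2 * x * y ^ 3,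
         fun x y => x ^ 2 - 4 * r * x * y ^ 2 - s * x ^ 2 * y ^ 2 + r ^ 2 * y ^ 4⟩
  | rs (e : ℂ) :
      NormalForm ⟨fun x _ => x, fun x y => y - x ^ 2 / 4, fun x y => -x * (y + e)⟩
  | null {a : ℂ → ℂ → ℂ} {b : ℂ → ℂ} (h : NullForm a b) :
      NormalForm ⟨a, fun _ y => b y, fun _ _ => 0⟩

end Pool.MP_f23e48
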